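import Pool.Graph.R_pool_sql_team_seeded_3997aac3.Q265.NF.E
import Pool.Agent.H584.Smooth.Cyc

/-!
# The primes of the points `(ζ ^ n : 1 - ζ ^ n : -1)` over a number field

Each prime at which the coordinates do not all have the same absolute value has norm at most
`(2 ^ d H(ζ)) ^ φ(n)`, where `d` is the degree of the field and `H` the multiplicative height.
-/

set_option autoImplicit false

namespace Pool.Agent.H584.SmoothNF

open NumberField Height Function IsDedekindDomain Polynomial Q241.AK Q265.NF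
open Pool.Agent.H584.Smooth (hc)

variable {K : Type*} [Field K] [NumberField K]

lemma le_mulHeight₁ (v : FinitePlace K) {y : K} (hy : y ≠ 0) : v y ≤ mulHeight₁ y := by
  rw [NumberField.mulHeight₁_eq]
  have hfin : HasFiniteMulSupport (fun v : FinitePlace K => max (v y) 1) := by
    refine (FinitePlace.hasFiniteMulSupport hy).subset fun u hu => ?_
    rw [mem_mulSupport] at hu ⊢
    intro h
    apply hu
    rw [h, max_self]
  have h1 : max (v y) 1 ≤ ∏ᶠ u : FinitePlace K, max (u y) 1 := by
    rw [← mul_finprod_cond_ne v hfin]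
    refine le_mul_of_one_le_right (by positivity) ?_
    exact one_le_finprod fun u => one_le_finprod fun _ => le_max_right _ _
  have h2 : (1 : ℝ) ≤ ∏ w : InfinitePlace K, max (w y) 1 ^ w.mult :=
    Finset.prod_induction _ (fun x : ℝ => 1 ≤ x)
      (fun _ _ hx hy => one_le_mul_of_one_le_of_one_le hx hy) le_rfl
      (fun w _ => one_le_pow₀ (le_max_right _ _))
  calc v y ≤ max (v y) 1 := le_max_left _ _
    _ ≤ ∏ᶠ u : FinitePlace K, max (u y) 1 := h1
    _ ≤ _ := le_mul_of_one_le_left (le_trans (by positivity) h1) h2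

/-- a prime at which `y` is not a unit is bounded by the height of `y` -/
lemma N_le_mulHeight₁ (v : FinitePlace K) {y : K} (hy : y ≠ 0) (h : v y ≠ 1) :
    N v ≤ mulHeight₁ y := by
  have key : ∀ z : K, z ≠ 0 → 1 < v z → N v ≤ mulHeight₁ z := by
    intro z hz h1
    have h2 := gap v one_ne_zero hz (by rwa [map_one])
    rw [map_one, mul_one] at h2
    exact h2.trans (le_mulHeight₁ v hz)
  rcases lt_or_gt_of_ne h with h1 | h1
  · have h0 : 0 < v y := FinitePlace.pos_iff.2 hy
    have h2 := key y⁻¹ (inv_ne_zero hy) (by rw [map_inv₀]; exact (one_lt_inv₀ h0).2 h1)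
    rwa [mulHeight₁_inv] at h2
  · exact key y hy h1

lemma fsum_le (v : FinitePlace K) {ι : Type*} (s : Finset ι) (f : ι → K) {B : ℝ} (hB : 0 ≤ B)
    (h : ∀ i ∈ s, v (f i) ≤ B) : v (∑ i ∈ s, f i) ≤ B := by
  classical
  induction s using Finset.induction_on with
  | empty =>
    rw [Finset.sum_empty, map_zero]
    exact hB
  | insert j s hj ih =>
    rw [Finset.sum_insert hj]
    exact (FinitePlace.add_le v _ _).trans (max_le (h j (Finset.mem_insert_self j s))
      (ih fun i hi => h i (Finset.mem_insert_of_mem hi)))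

lemma int_le (v : FinitePlace K) (m : ℤ) : v (m : K) ≤ 1 := by
  have hnat : ∀ n : ℕ, v (n : K) ≤ 1 := by
    intro n
    induction n with
    | zero =>
      rw [Nat.cast_zero, map_zero]
      exact zero_le_one
    | succ n ih =>
      rw [Nat.cast_succ]
      exact (FinitePlace.add_le v _ _).trans (max_le ih (by rw [map_one]))
  rcases m.natAbs_eq with h | h
  · rw [h, Int.cast_natCast]
    exact hnat _
  · rw [h, Int.cast_neg, fneg, Int.cast_natCast]
    exact hnat _

lemma hc_one {R : Type*} [CommRing R] (d : ℕ) (x : R) : hc d x 1 = (cyclotomic d R).eval x := by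
  unfold hc
  rw [scaleRoots_one]

/-- the value of a cyclotomic polynomial at a finite place -/
lemma finite_le (v : FinitePlace K) (ζ : K) (d : ℕ) :
    v ((cyclotomic d K).eval ζ) ≤ max (v ζ) 1 ^ d.totient := by
  have hm : (1 : ℝ) ≤ max (v ζ) 1 := le_max_right _ _
  rw [eval_eq_sum_range, natDegree_cyclotomic]
  refine fsum_le v _ _ (by positivity) fun i hi => ?_
  rw [Finset.mem_range] at hi
  rw [map_mul, map_pow]
  have h1 : v ((cyclotomic d K).coeff i) ≤ 1 := by
    rw [← map_cyclotomic_int, coeff_map]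
    exact int_le v _
  calc v ((cyclotomic d K).coeff i) * v ζ ^ i ≤ 1 * max (v ζ) 1 ^ i := by
        gcongr
        exact le_max_left _ _
    _ = max (v ζ) 1 ^ i := one_mul _
    _ ≤ max (v ζ) 1 ^ d.totient := pow_le_pow_right₀ hm (by omega)

omit [NumberField K] in
/-- the value of a cyclotomic polynomial at an infinite place -/
lemma infinite_le (w : InfinitePlace K) (ζ : K) (d : ℕ) :
    w ((cyclotomic d K).eval ζ) ≤ (2 * max (w ζ) 1) ^ d.totient := by
  have h1 : w ((cyclotomic d K).eval ζ) = ‖hc d (w.embedding ζ) 1‖ := by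
    rw [← InfinitePlace.norm_embedding_eq, hc_one, ← map_cyclotomic d w.embedding, eval_map_apply]
  rw [h1]
  refine (Smooth.norm_hc_le d one_ne_zero).trans ?_
  rw [norm_one, InfinitePlace.norm_embedding_eq]
  refine pow_le_pow_left₀ (by positivity) ?_ _
  have h2 := le_max_left (w ζ) 1
  have h3 := le_max_right (w ζ) 1
  linarith

/-- the height of the value of a cyclotomic polynomial -/
theorem height_cyclotomic (ζ : K) (d : ℕ) : mulHeight₁ ((cyclotomic d K).eval ζ) ≤
    (2 ^ Module.finrank ℚ K * mulHeight₁ ζ) ^ d.totient := by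
  have hfin : ∀ y : K, HasFiniteMulSupport (fun v : FinitePlace K => max (v y) 1) := by
    intro y
    by_cases hy : y = 0
    · subst hy
      refine Set.Finite.subset Set.finite_empty fun v hv => ?_
      rw [mem_mulSupport] at hv
      exact absurd (by simp) hv
    · refine (FinitePlace.hasFiniteMulSupport hy).subset fun u hu => ?_
      rw [mem_mulSupport] at hu ⊢
      intro h
      apply hu
      rw [h, max_self]
  have hF : ∏ᶠ v : FinitePlace K, max (v ((cyclotomic d K).eval ζ)) 1 ≤
      (∏ᶠ v : FinitePlace K, max (v ζ) 1) ^ d.totient := by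
    rw [finprod_pow (hfin ζ)]
    refine finprod_le_finprod (hfin _) (fun v => by positivity) ?_ fun v => ?_
    · refine (hfin ζ).subset fun v hv => ?_
      rw [mem_mulSupport] at hv ⊢
      intro h
      apply hv
      rw [h, one_pow]
    · exact max_le (finite_le v ζ d) (one_le_pow₀ (le_max_right _ _))
  have hI : ∏ w : InfinitePlace K, max (w ((cyclotomic d K).eval ζ)) 1 ^ w.mult ≤
      (2 ^ Module.finrank ℚ K * ∏ w : InfinitePlace K, max (w ζ) 1 ^ w.mult) ^ d.totient := by
    rw [← InfinitePlace.sum_mult_eq, ← Finset.prod_pow_eq_pow_sum, ← Finset.prod_mul_distrib,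
      ← Finset.prod_pow]
    refine Finset.prod_le_prod (fun w _ => by positivity) fun w _ => ?_
    rw [← mul_pow, ← pow_mul, mul_comm w.mult, pow_mul]
    refine pow_le_pow_left₀ (by positivity) (max_le (infinite_le w ζ d) ?_) _
    have := le_max_right (w ζ) 1
    exact one_le_pow₀ (by linarith)
  rw [NumberField.mulHeight₁_eq, NumberField.mulHeight₁_eq, ← mul_assoc, mul_pow]
  exact mul_le_mul hI hF (finprod_nonneg fun v => by positivity) (by positivity)

/-- the primes of the point `(ζ ^ n : 1 - ζ ^ n : -1)` -/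
theorem prime_le {n : ℕ} (hn : 0 < n) {ζ : K} (h0 : ζ ≠ 0) (h1 : ζ ^ n ≠ 1) {v : FinitePlace K}
    (hv : v ∈ D ![ζ ^ n, 1 - ζ ^ n, -1]) :
    N v ≤ (2 ^ Module.finrank ℚ K * mulHeight₁ ζ) ^ n.totient := by
  have hφ : 1 ≤ n.totient := Nat.totient_pos.2 hn
  have hB : 1 ≤ 2 ^ Module.finrank ℚ K * mulHeight₁ ζ :=
    one_le_mul_of_one_le_of_one_le (one_le_pow₀ (by norm_num)) (one_le_mulHeight₁ ζ)
  by_cases hvz : v ζ = 1
  · -- the prime divides one of the cyclotomic values
    have hy : v (ζ ^ n - 1) ≠ 1 := by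
      intro h
      obtain ⟨i, j, hij⟩ := hv
      apply hij
      have hall : ∀ i : Fin 3, v ((![ζ ^ n, 1 - ζ ^ n, -1] : Fin 3 → K) i) = 1 := by
        intro i
        fin_cases i
        · show v (ζ ^ n) = 1
          rw [map_pow, hvz, one_pow]
        · show v (1 - ζ ^ n) = 1
          rw [← fneg, neg_sub]
          exact h
        · show v (-1) = 1
          rw [fneg, map_one]
      rw [hall i, hall j]
    have hprod : ζ ^ n - 1 = ∏ d ∈ n.divisors, (cyclotomic d K).eval ζ := by
      have := congrArg (Polynomial.eval ζ) (prod_cyclotomic_eq_X_pow_sub_one hn K)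
      rw [eval_prod, eval_sub, eval_pow, eval_X, eval_one] at this
      exact this.symm
    have hex : ∃ d ∈ n.divisors, v ((cyclotomic d K).eval ζ) ≠ 1 := by
      by_contra hcon
      push Not at hcon
      apply hy
      rw [hprod, map_prod]
      exact Finset.prod_eq_one hcon
    obtain ⟨d, hd, hd1⟩ := hex
    have hne : (cyclotomic d K).eval ζ ≠ 0 := by
      intro h
      apply h1
      rw [← sub_eq_zero, hprod]
      exact Finset.prod_eq_zero hd h
    calc N v ≤ mulHeight₁ ((cyclotomic d K).eval ζ) := N_le_mulHeight₁ v hne hd1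
      _ ≤ (2 ^ Module.finrank ℚ K * mulHeight₁ ζ) ^ d.totient := height_cyclotomic ζ d
      _ ≤ _ := pow_le_pow_right₀ hB (Nat.le_of_dvd hφ
          (Nat.totient_dvd_of_dvd (Nat.dvd_of_mem_divisors hd)))
  · calc N v ≤ mulHeight₁ ζ := N_le_mulHeight₁ v h0 hvz
      _ ≤ 2 ^ Module.finrank ℚ K * mulHeight₁ ζ :=
          le_mul_of_one_le_left (mulHeight₁_nonneg ζ) (one_le_pow₀ (by norm_num))
      _ = (2 ^ Module.finrank ℚ K * mulHeight₁ ζ) ^ 1 := (pow_one _).symm
      _ ≤ _ := pow_le_pow_right₀ hB hφ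

/-- the height of the point `(ζ ^ n : 1 - ζ ^ n : -1)` -/
theorem height_ge (n : ℕ) (ζ : K) :
    n * logHeight₁ ζ ≤ logHeight (![ζ ^ n, 1 - ζ ^ n, -1] : Fin 3 → K) := by
  rw [← logHeight₁_pow, ← logHeight₁_neg, logHeight₁_eq_logHeight]
  have h1 : (![-ζ ^ n, 1] : Fin 2 → K) = (-1 : K) • ![ζ ^ n, -1] := by
    funext i
    fin_cases i <;> simp
  have h2 := logHeight_comp_le (![0, 2] : Fin 2 → Fin 3) (![ζ ^ n, 1 - ζ ^ n, -1] : Fin 3 → K)
  have h3 : (![ζ ^ n, 1 - ζ ^ n, -1] : Fin 3 → K) ∘ (![0, 2] : Fin 2 → Fin 3) = ![ζ ^ n, -1] := by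
    funext i
    fin_cases i <;> rfl
  rw [h3] at h2
  rw [h1, logHeight_smul_eq_logHeight _ (neg_ne_zero.2 one_ne_zero)]
  exact h2

end Pool.Agent.H584.SmoothNF
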