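import Pool.Agent.H584.SmoothNF.Primes

/-!
# The transfer of the abc inequality to the localised powers, with a linear loss
-/

set_option autoImplicit false

namespace Pool.Agent.H584.SmoothNF

open NumberField Height Function IsDedekindDomain Q241.AK Q265.NF

variable {K : Type*} [Field K] [NumberField K]

/-- the transfer of the abc inequality, with a linear loss in `ε` -/
theorem transfer_rate {Q Q' : (Fin 3 → K) → Prop} (hQ : ∀ x, Q x → TT x) (M : ℕ)
    (f : ℕ → (Fin 3 → K) → Fin 3 → K) (n : ℕ → ℕ) (hn : ∀ m, 1 ≤ m → 1 ≤ n m)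
    (hf : ∀ m, 1 ≤ m → Good (f m) (n m))
    (h : ∀ x, Q x → ∃ m, 1 ≤ m ∧ m ≤ M ∧ (TT (f m x) → Q' (f m x))) :
    ∃ κ : ℝ, 0 < κ ∧ ∀ ε : ℝ, 0 < ε → ε ≤ 1 →
      (∃ C : ℝ, ∀ x : Fin 3 → K, Q' x → logHeight x ≤ (1 + κ * ε) * rd x + C) →
      ∃ C : ℝ, ∀ x : Fin 3 → K, Q x → logHeight x ≤ (1 + ε) * rd x + C := by
  obtain ⟨L, hL⟩ : ∃ L : ℝ, L = ∑ m ∈ Finset.Icc 1 M, (n m : ℝ) := ⟨_, rfl⟩
  have hL0 : 0 ≤ L := by
    rw [hL]
    exact Finset.sum_nonneg fun m _ => Nat.cast_nonneg _
  have hnL : ∀ m, 1 ≤ m → m ≤ M → (n m : ℝ) ≤ L := by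
    intro m h1 h2
    rw [hL]
    exact Finset.single_le_sum (f := fun m => (n m : ℝ)) (fun i _ => Nat.cast_nonneg _)
      (Finset.mem_Icc.2 ⟨h1, h2⟩)
  refine ⟨1 / (1 + 2 * L), by positivity, fun ε hε hε1 ⟨A, hA⟩ => ?_⟩
  have key : ∀ m, 1 ≤ m → m ≤ M → ∃ C : ℝ, ∀ x : Fin 3 → K, TT x → (TT (f m x) → Q' (f m x)) →
      logHeight x ≤ (1 + ε) * rd x + C := by
    intro m hm hmM
    obtain ⟨B, hB, hg⟩ := hf m hm
    obtain ⟨k, hk⟩ : ∃ k : ℝ, k = (n m : ℝ) - 1 := ⟨_, rfl⟩
    have hk0 : 0 ≤ k := by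
      rw [hk]
      have : (1 : ℝ) ≤ n m := by exact_mod_cast hn m hm
      linarith
    obtain ⟨δ, hδ⟩ : ∃ δ : ℝ, δ = ε / (1 + k * (1 + ε)) := ⟨_, rfl⟩
    have hd : 0 < 1 + k * (1 + ε) := by positivity
    have hδ0 : 0 < δ := by rw [hδ]; positivity
    have hδ2 : (1 + δ) = (1 + ε) * (1 - k * δ) := by
      rw [hδ]
      field_simp
      ring
    have hδ1 : 0 < 1 - k * δ := by
      by_contra hcon
      push Not at hcon
      nlinarith
    have hrate : 1 / (1 + 2 * L) * ε ≤ δ := by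
      rw [hδ, div_mul_eq_mul_div, one_mul]
      apply div_le_div_of_nonneg_left hε.le hd
      have h1 : k ≤ L := by
        have := hnL m hm hmM
        rw [hk]
        linarith
      nlinarith
    obtain ⟨E, hE⟩ : ∃ E : ℝ, E = (A + B + (1 + δ) * B) / (1 - k * δ) := ⟨_, rfl⟩
    refine ⟨max E B, fun x hx hx' => ?_⟩
    have hr := rd_nonneg x
    rcases hg x hx with h0 | ⟨h1, h2, h3, h4⟩
    · have := le_max_right E B
      have h5 : 0 ≤ (1 + ε) * rd x := by positivity
      linarith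
    · have h5 : logHeight (f m x) ≤ (1 + δ) * rd (f m x) + A := by
        have h6 := hA (f m x) (hx' h1)
        have h7 : (1 + 1 / (1 + 2 * L) * ε) * rd (f m x) ≤ (1 + δ) * rd (f m x) :=
          mul_le_mul_of_nonneg_right (by linarith) (rd_nonneg _)
        linarith
      have h6 : (1 + δ) * rd (f m x) ≤ (1 + δ) * (rd x + k * logHeight x + B) := by
        rw [hk]
        gcongr
      have h7 : (n m : ℝ) = k + 1 := by rw [hk]; ring
      rw [h7] at h2
      have h8 : (1 - k * δ) * logHeight x ≤ (1 - k * δ) * ((1 + ε) * rd x + E) := by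
        have e1 : (1 - k * δ) * E = A + B + (1 + δ) * B := by
          rw [hE]
          field_simp
        have e2 : (1 - k * δ) * ((1 + ε) * rd x + E) = (1 + δ) * rd x + (1 - k * δ) * E := by
          rw [hδ2]
          ring
        rw [e2, e1]
        nlinarith
      have h9 := le_of_mul_le_mul_left h8 hδ1
      exact h9.trans (by gcongr; exact le_max_left _ _)
  choose! C hC using key
  refine ⟨∑ m ∈ Finset.Icc 1 M, |C m|, fun x hx => ?_⟩
  obtain ⟨m, h1, h2, h3⟩ := h x hx
  have h4 := hC m h1 h2 x (hQ x hx) h3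
  have h5 : |C m| ≤ ∑ m ∈ Finset.Icc 1 M, |C m| :=
    Finset.single_le_sum (f := fun m => |C m|) (fun i _ => abs_nonneg _)
      (Finset.mem_Icc.2 ⟨h1, h2⟩)
  have h6 := le_abs_self (C m)
  linarith

/-- the localisation of the library, with a linear loss -/
theorem localise_rate (S : Finset (FinitePlace K)) {δ : ℝ} (hδ : 0 < δ) {k : ℕ} (hk : 1 ≤ k) :
    ∃ κ : ℝ, 0 < κ ∧ ∀ ε : ℝ, 0 < ε → ε ≤ 1 →
      (∃ C : ℝ, ∀ x : Fin 3 → K, QS S δ k x → logHeight x ≤ (1 + κ * ε) * rd x + C) →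
      ∃ C : ℝ, ∀ x : Fin 3 → K, TT x → logHeight x ≤ (1 + ε) * rd x + C := by
  obtain ⟨η, hη, hS, hI⟩ := cusps_all S hδ
  obtain ⟨L, M, hL, hLM⟩ := exponents S hη
  refine transfer_rate (Q := TT) (Q' := QS S δ k) (fun x hx => hx) M
    (fun m => pw k ∘ (qq2 ∘ (qq1 ∘ pw (L * m)))) (fun m => L * m * 2 * 2 * k) ?_ ?_ ?_
  · intro m hm
    exact Nat.one_le_iff_ne_zero.2 (by positivity)
  · intro m hm
    have hLm : 1 ≤ L * m := Nat.one_le_iff_ne_zero.2 (by positivity)
    have g1 := (good_pw (K := K) (L * m) hLm).comp hLm (by norm_num) good_qq1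
    have g2 := g1.comp (by omega) (by norm_num) (good_qq2 (K := K))
    exact g2.comp (by omega) hk (good_pw (K := K) k hk)
  · intro x hx
    obtain ⟨hs, hx0⟩ := hx
    have ht : -x 0 / x 2 ≠ 0 := div_ne_zero (neg_ne_zero.2 (hx0 0)) (hx0 2)
    obtain ⟨m, hm1, hm2, hm3, hm4⟩ := hLM _ ht
    refine ⟨m, hm1, hm2, fun hT => ⟨hT, ?_⟩⟩
    obtain ⟨y, hy⟩ : ∃ y : Fin 3 → K, y = pw (L * m) x := ⟨_, rfl⟩
    obtain ⟨z, hz⟩ : ∃ z : Fin 3 → K, z = qq2 (qq1 y) := ⟨_, rfl⟩
    have hTz : TT (pw k z) := by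
      rw [hz, hy]
      exact hT
    have hz2 : z 2 ≠ 0 := by
      intro h0
      apply hTz.2 2
      show -(-z 2) ^ k = 0
      rw [h0, neg_zero, zero_pow (by omega), neg_zero]
    have hs' : y 0 + y 1 + y 2 = 0 := by
      rw [hy]
      show x 0 ^ (L * m) + ((-x 2) ^ (L * m) - x 0 ^ (L * m)) + -(-x 2) ^ (L * m) = 0
      ring
    have hy0 : ∀ i, y i ≠ 0 := by
      have e0 : z 0 = 4 * (4 * y 0 * y 1) * (-y 2 ^ 2) := by rw [hz]; rfl
      have hz0 : z 0 ≠ 0 := by
        intro h0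
        apply hTz.2 0
        show z 0 ^ k = 0
        rw [h0, zero_pow (by omega)]
      rw [e0] at hz0
      intro i
      fin_cases i
      · intro h0
        apply hz0
        have h0' : y 0 = 0 := h0
        rw [h0']
        ring
      · intro h0
        apply hz0
        have h0' : y 1 = 0 := h0
        rw [h0']
        ring
      · intro h0
        apply hz0
        have h0' : y 2 = 0 := h0
        rw [h0']
        ring
    have close : ∀ a : AbsoluteValue K ℝ, a (z 0) < δ * a (z 2) → a (-z 0 / z 2) < δ := by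
      intro a ha
      rw [map_div₀, a.map_neg, div_lt_iff₀ (a.pos hz2)]
      exact ha
    show ∃ ζ : K, pw k (qq2 (qq1 (pw (L * m) x))) 0 =
        -(ζ ^ k * pw k (qq2 (qq1 (pw (L * m) x))) 2) ∧
        (∀ w : InfinitePlace K, w ζ < δ) ∧ ∀ v ∈ S, v ζ < δ
    rw [← hy, ← hz]
    refine ⟨-z 0 / z 2, ?_, fun w => ?_, fun v hv => ?_⟩
    · show z 0 ^ k = -((-z 0 / z 2) ^ k * -(-z 2) ^ k)
      rw [mul_neg, neg_neg, ← mul_pow]
      congr 1
      field_simp
    · refine close w.val ?_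
      have h1 : Near η w.val y := by
        rw [hy]
        exact near_pw w.val hx0 (L * m) (hm4 w)
      have h2 := hI w y hs' hy0 h1
      rw [← hz] at h2
      exact h2
    · refine close v.val ?_
      have h1 : Near η v.val y := by
        rw [hy]
        refine near_pw v.val hx0 (L * m) ?_
        rcases hm3 v hv with h | h | h
        · exact Or.inl h
        · exact Or.inr (Or.inl h)
        · exact Or.inr (Or.inr (Or.inl h))
      have h2 := hS v hv y hs' hy0 h1
      rw [← hz] at h2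
      exact h2

/-- the absolute values of a scaled vector -/
lemma D_smul {c : K} (hc : c ≠ 0) (x : Fin 3 → K) : D (c • x) = D x := by
  ext v
  have h0 : v c ≠ 0 := (FinitePlace.pos_iff.2 hc).ne'
  constructor
  · rintro ⟨i, j, h⟩
    refine ⟨i, j, fun h1 => h ?_⟩
    rw [Pi.smul_apply, Pi.smul_apply, smul_eq_mul, smul_eq_mul, map_mul, map_mul, h1]
  · rintro ⟨i, j, h⟩
    refine ⟨i, j, fun h1 => h ?_⟩
    rw [Pi.smul_apply, Pi.smul_apply, smul_eq_mul, smul_eq_mul, map_mul, map_mul] at h1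
    exact mul_left_cancel₀ h0 h1

lemma rd_smul {c : K} (hc : c ≠ 0) (x : Fin 3 → K) : rd (c • x) = rd x := by
  rw [rd_eq, rd_eq, D_smul hc]

/-- an upper bound for the height of the point `(u : 1 - u : -1)` -/
lemma height_le (u : K) (hu : u ≠ 0) (hu1 : 1 - u ≠ 0) : logHeight (![u, 1 - u, -1] : Fin 3 → K) ≤
    logHeight₁ u + Module.finrank ℚ K * Real.log 2 := by
  have hx : ∀ i, (![u, 1 - u, -1] : Fin 3 → K) i ≠ 0 := by
    intro i
    fin_cases i
    · exact hu
    · exact hu1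
    · exact neg_ne_zero.2 one_ne_zero
  have h1 : mulHeight (![u, 1 - u, -1] : Fin 3 → K) ≤ 2 ^ Module.finrank ℚ K * mulHeight₁ u := by
    rw [height_eq hx, NumberField.mulHeight₁_eq, ← mul_assoc]
    have hF : ∏ᶠ v : FinitePlace K, mf (![u, 1 - u, -1] : Fin 3 → K) v ≤
        ∏ᶠ v : FinitePlace K, max (v u) 1 := by
      refine finprod_le_finprod (mf_fin hx) (fun v => (mf_pos hx v).le) ?_ fun v => ?_
      · refine (FinitePlace.hasFiniteMulSupport hu).subset fun v hv => ?_
        rw [mem_mulSupport] at hv ⊢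
        intro h
        apply hv
        rw [h, max_self]
      · refine mf_le fun i => ?_
        fin_cases i
        · exact le_max_left _ _
        · show v (1 - u) ≤ _
          refine (fsub v 1 u).trans ?_
          rw [map_one, max_comm]
        · show v (-1) ≤ _
          rw [fneg, map_one]
          exact le_max_right _ _
    have hI : ∏ w : InfinitePlace K, mi (![u, 1 - u, -1] : Fin 3 → K) w ^ w.mult ≤
        2 ^ Module.finrank ℚ K * ∏ w : InfinitePlace K, max (w u) 1 ^ w.mult := by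
      rw [← InfinitePlace.sum_mult_eq, ← Finset.prod_pow_eq_pow_sum, ← Finset.prod_mul_distrib]
      refine Finset.prod_le_prod (fun w _ => pow_nonneg (mi_pos hx w).le _) fun w _ => ?_
      rw [← mul_pow]
      refine pow_le_pow_left₀ (mi_pos hx w).le (mi_le fun i => ?_) _
      have h2 := le_max_left (w u) 1
      have h3 := le_max_right (w u) 1
      fin_cases i
      · show w u ≤ _
        linarith
      · show w (1 - u) ≤ _
        have := isub w 1 u
        rw [map_one] at this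
        linarith
      · show w (-1) ≤ _
        rw [ineg, map_one]
        linarith
    exact mul_le_mul hI hF (finprod_nonneg fun v => (mf_pos hx v).le) (by positivity)
  have h2 := Real.log_le_log (mulHeight_pos _) h1
  rw [Real.log_mul (by positivity) (mulHeight₁_ne_zero u), Real.log_pow] at h2
  rw [logHeight_eq_log_mulHeight, logHeight₁_eq_log_mulHeight₁]
  linarith

end Pool.Agent.H584.SmoothNF
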